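import Pool.Agent.R498.MT.QSys

set_option autoImplicit false

/-!
# Clusters of almost primes `n ^ 2 - 2` in narrow progressions
-/

namespace Pool.Agent.Results.MP_0b748d_nt.Clusters

open Filter

/-- `x ^ 2 - 2` has at most three prime factors, counted with multiplicity, all of them at least `w`. -/
def AlmostPrimeArgument (w : ℝ) (x : ℕ) : Prop :=
  (x ^ 2 - 2).primeFactorsList.length ≤ 3 ∧ ∀ p : ℕ, p.Prime → p ∣ x ^ 2 - 2 → w ≤ p

/-- **A theorem of Maynard-Tao type for `x ^ 2 - 2`.** For every `m` there is `K` such that, for every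
finite set `S` of at least `K` nonnegative integers and every `l`, there is an exponent `B` such that
for all large `N` there are a subset `H` of `S` with `m` elements and an arithmetic progression
`n, n + d, ..., n + (l - 1) d` in `(N, N + N ^ (3 / 4)]` with difference `1 ≤ d ≤ (log N) ^ B` such that
for all its terms `x` and all `h ∈ H` the number `(x + h) ^ 2 - 2` has at most three prime factors, all
of them at least `N ^ (73 / 400)`. -/
theorem result (m : ℕ) : ∃ K : ℕ, ∀ S : Finset ℕ, K ≤ S.card → ∀ l : ℕ, ∃ B : ℕ,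
    ∀ᶠ N : ℕ in atTop,
    ∃ H ⊆ S, H.card = m ∧ ∃ n d : ℕ, 1 ≤ d ∧ (d : ℝ) ≤ Real.log N ^ B ∧
      ∀ j < l, N < n + j * d ∧ ((n + j * d : ℕ) : ℝ) ≤ N + (N : ℝ) ^ (3 / 4 : ℝ) ∧
        ∀ h ∈ H, AlmostPrimeArgument ((N : ℝ) ^ (73 / 400 : ℝ)) (n + j * d + h) := by
  obtain ⟨K, hK⟩ := Pool.Agent.R498.MT.quad_sys 1 0 (-2) one_ne_zero
    (by
      rintro ⟨r, hr⟩
      norm_num at hr
      have h1 : r ≤ 2 := by nlinarith
      have h2 : -2 ≤ r := by nlinarith
      interval_cases r <;> omega)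
    1 one_ne_zero
    (fun p hp => ⟨1, fun h => by
      rw [Polynomial.eval_one] at h
      norm_num at h
      have h2 : p ∣ 1 := by exact_mod_cast h
      exact hp.one_lt.ne' (Nat.dvd_one.1 h2)⟩) m
  refine ⟨K, fun S hS l => ?_⟩
  obtain ⟨r, δ, hδ, hmain⟩ := hK S hS
  obtain ⟨B, hB⟩ := hmain l
  refine ⟨B, ?_⟩
  filter_upwards [hB, eventually_ge_atTop 2] with N hN hN2
  obtain ⟨H, hH, hHc, n, d, h1, h2, h3⟩ := hN
  refine ⟨H, hH, hHc, n, d, h1, h2, fun j hj => ?_⟩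
  obtain ⟨h4, h5, h6⟩ := h3 j hj
  refine ⟨h4, h5, fun h hh => ?_⟩
  obtain ⟨g1, g2, -, -⟩ := h6 h hh
  have e1 : 1 * ((n + j * d + h : ℕ) : ℤ) ^ 2 + 0 * ((n + j * d + h : ℕ) : ℤ) + (-2) =
      (((n + j * d + h) ^ 2 - 2 : ℕ) : ℤ) := by
    have hx : 2 ≤ n + j * d + h := by omega
    have : 2 ≤ (n + j * d + h) ^ 2 := by nlinarith
    rw [Nat.cast_sub this]
    push_cast
    ring
  rw [e1] at g1 g2
  rw [Int.natAbs_natCast] at g1
  exact ⟨g1, fun q hq hqd => g2 q hq (by exact_mod_cast hqd)⟩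

end Pool.Agent.Results.MP_0b748d_nt.Clusters
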